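import Mathlib
import Pool.Agent.X214.Fano

/-!
Rectangular components in the kernel of the Hermite-Hadamard-Howe map.

As in the problem file, `V^{⊗ι}` is the space of multilinear maps on `V^*` with inputs indexed
by `ι`.
-/

namespace Pool.Agent.Results.MP_96ff56_al.OddRectangle

open Finset Module

variable {V : Type*} [AddCommGroup V] [Module ℂ V]

/-- `V^{⊗ι}`: the multilinear maps `V^* × ... × V^* → ℂ` with inputs indexed by `ι`. -/
def Tens (V : Type*) [AddCommGroup V] [Module ℂ V] (ι : Type*) : Type _ :=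
  MultilinearMap ℂ (fun _ : ι => Dual ℂ V) ℂ

noncomputable instance tensGroup (V : Type*) [AddCommGroup V] [Module ℂ V] (ι : Type*) :
    AddCommGroup (Tens V ι) :=
  inferInstanceAs (AddCommGroup (MultilinearMap ℂ (fun _ : ι => Dual ℂ V) ℂ))

noncomputable instance tensModule (V : Type*) [AddCommGroup V] [Module ℂ V] (ι : Type*) :
    Module ℂ (Tens V ι) :=
  inferInstanceAs (Module ℂ (MultilinearMap ℂ (fun _ : ι => Dual ℂ V) ℂ))

/-- The value of the multilinear map `T` at `ξ`. -/
def Tens.val {V : Type*} [AddCommGroup V] [Module ℂ V] {ι : Type*} (T : Tens V ι)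
    (ξ : ι → Dual ℂ V) : ℂ :=
  (show MultilinearMap ℂ (fun _ : ι => Dual ℂ V) ℂ from T) ξ

theorem Tens.ext {ι : Type*} {S T : Tens V ι} (h : ∀ ξ, S.val ξ = T.val ξ) : S = T :=
  MultilinearMap.ext h

theorem Tens.add_val {ι : Type*} (S T : Tens V ι) (ξ : ι → Dual ℂ V) :
    (S + T).val ξ = S.val ξ + T.val ξ := rfl

theorem Tens.smul_val {ι : Type*} (c : ℂ) (T : Tens V ι) (ξ : ι → Dual ℂ V) :
    (c • T).val ξ = c * T.val ξ := rfl

theorem Tens.neg_val {ι : Type*} (T : Tens V ι) (ξ : ι → Dual ℂ V) :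
    (-T).val ξ = -T.val ξ := rfl

theorem Tens.zero_val {ι : Type*} (ξ : ι → Dual ℂ V) : (0 : Tens V ι).val ξ = 0 := rfl

theorem Tens.sum_val {ι α : Type*} (s : Finset α) (f : α → Tens V ι) (ξ : ι → Dual ℂ V) :
    (∑ a ∈ s, f a).val ξ = ∑ a ∈ s, (f a).val ξ := by
  classical
  induction s using Finset.induction_on with
  | empty => rfl
  | insert a s ha ih => rw [Finset.sum_insert ha, Finset.sum_insert ha, Tens.add_val, ih]

/-- The action of `g` in `GL(V)` on `V^{⊗ι}`: `(g T)(ξ) = T(ξ ∘ g)`. -/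
noncomputable def act {ι : Type*} (g : V ≃ₗ[ℂ] V) (T : Tens V ι) : Tens V ι :=
  MultilinearMap.compLinearMap T fun _ => (g : V →ₗ[ℂ] V).dualMap

/-- `T` lies in `S^d(S^n V)`, inside `(V^{⊗n})^{⊗d}`: it is invariant under permutations inside each
of the `d` blocks of size `n` and under permutations of the blocks; the input `(k, i)` is the
`i`-th factor of the `k`-th block. -/
def IsSymSym {d n : ℕ} (T : Tens V (Fin d × Fin n)) : Prop :=
  ∀ (σ : Equiv.Perm (Fin d)) (τ : Fin d → Equiv.Perm (Fin n)) (ξ : Fin d × Fin n → Dual ℂ V),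
    T.val (fun p => ξ (σ p.1, τ p.1 p.2)) = T.val ξ

/-- Permutation of the inputs of a tensor: `(permute e T)(ξ) = T(ξ ∘ e)`. -/
noncomputable def permute {ι κ : Type*} (e : ι ≃ κ) (T : Tens V ι) : Tens V κ :=
  MultilinearMap.domDomCongr e T

/-- Regrouping `(V^{⊗n})^{⊗d} = (V^{⊗d})^{⊗n}`: the `i`-th new block collects the `i`-th factor of
each of the `d` old blocks. -/
noncomputable def regroup {d n : ℕ} (T : Tens V (Fin d × Fin n)) : Tens V (Fin n × Fin d) :=
  permute (Equiv.prodComm (Fin d) (Fin n)) T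

theorem inside_left {n d : ℕ} (σ : Fin n → Equiv.Perm (Fin d)) (q : Fin n × Fin d) :
    (q.1, (σ q.1).symm (σ q.1 q.2)) = q := by simp

theorem inside_right {n d : ℕ} (σ : Fin n → Equiv.Perm (Fin d)) (q : Fin n × Fin d) :
    (q.1, σ q.1 ((σ q.1).symm q.2)) = q := by simp

/-- Permutation of the inputs inside the blocks. -/
def inside {n d : ℕ} (σ : Fin n → Equiv.Perm (Fin d)) : Equiv.Perm (Fin n × Fin d) where
  toFun q := (q.1, σ q.1 q.2)
  invFun q := (q.1, (σ q.1).symm q.2)
  left_inv := inside_left σ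
  right_inv := inside_right σ

theorem blocks_left {n d : ℕ} (ρ : Equiv.Perm (Fin n)) (q : Fin n × Fin d) :
    (ρ.symm (ρ q.1), q.2) = q := by simp

theorem blocks_right {n d : ℕ} (ρ : Equiv.Perm (Fin n)) (q : Fin n × Fin d) :
    (ρ (ρ.symm q.1), q.2) = q := by simp

/-- Permutation of the blocks. -/
def blocks {n : ℕ} (d : ℕ) (ρ : Equiv.Perm (Fin n)) : Equiv.Perm (Fin n × Fin d) where
  toFun q := (ρ q.1, q.2)
  invFun q := (ρ.symm q.1, q.2)
  left_inv := blocks_left ρ
  right_inv := blocks_right ρ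

/-- Symmetrization inside each of the `n` blocks of size `d`. -/
noncomputable def symInside {n d : ℕ} (T : Tens V (Fin n × Fin d)) : Tens V (Fin n × Fin d) :=
  ((d.factorial : ℂ) ^ n)⁻¹ • ∑ σ : Fin n → Equiv.Perm (Fin d), permute (inside σ) T

/-- Symmetrization over the `n` blocks. -/
noncomputable def symBlocks {n d : ℕ} (T : Tens V (Fin n × Fin d)) : Tens V (Fin n × Fin d) :=
  (n.factorial : ℂ)⁻¹ • ∑ ρ : Equiv.Perm (Fin n), permute (blocks d ρ) T

/-- The Hermite-Hadamard-Howe map `h_{d,n}` (defined on all of `(V^{⊗n})^{⊗d}`): regroup,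
symmetrize inside each new block, symmetrize over the new blocks. -/
noncomputable def hmap {d n : ℕ} (T : Tens V (Fin d × Fin n)) : Tens V (Fin n × Fin d) :=
  symBlocks (symInside (regroup T))

/-- The value of `(w_1 ∧ ... ∧ w_n)^{⊗d}` at `ξ`. -/
noncomputable def wedgeVal (d : ℕ) {n : ℕ} (w : Fin n → V) (ξ : Fin d × Fin n → Dual ℂ V) : ℂ :=
  ∏ k : Fin d, (Matrix.of fun i j : Fin n => ξ (k, i) (w j)).det

theorem wedgeVal_update {d n : ℕ} [inst : DecidableEq (Fin d × Fin n)] (w : Fin n → V)
    (ξ : Fin d × Fin n → Dual ℂ V) (p : Fin d × Fin n) (z : Dual ℂ V) :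
    wedgeVal d w (Function.update ξ p z) =
      ((Matrix.of fun i j : Fin n => ξ (p.1, i) (w j)).updateRow p.2 (fun j => z (w j))).det *
      ∏ k ∈ univ.erase p.1, (Matrix.of fun i j : Fin n => ξ (k, i) (w j)).det := by
  have h1 : ∀ (k : Fin d), k ≠ p.1 →
      (Matrix.of fun i j : Fin n => (Function.update ξ p z) (k, i) (w j)).det =
      (Matrix.of fun i j : Fin n => ξ (k, i) (w j)).det := by
    intro k hk
    congr 1
    ext i j
    simp only [Matrix.of_apply]
    rw [Function.update_of_ne]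
    intro h
    exact hk (by rw [← h])
  have h2 : (Matrix.of fun i j : Fin n => (Function.update ξ p z) (p.1, i) (w j)).det =
      ((Matrix.of fun i j : Fin n => ξ (p.1, i) (w j)).updateRow p.2
        (fun j => z (w j))).det := by
    congr 1
    ext i j
    simp only [Matrix.of_apply, Matrix.updateRow_apply]
    split_ifs with h
    · subst h
      simp
    · rw [Function.update_of_ne]
      intro h'
      exact h (by rw [← h'])
  rw [wedgeVal, ← Finset.mul_prod_erase univ _ (mem_univ p.1), h2,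
    Finset.prod_congr rfl (fun k hk => h1 k (Finset.ne_of_mem_erase hk))]

theorem wedgeVal_add {d n : ℕ} [inst : DecidableEq (Fin d × Fin n)] (w : Fin n → V)
    (ξ : Fin d × Fin n → Dual ℂ V) (p : Fin d × Fin n) (x y : Dual ℂ V) :
    wedgeVal d w (Function.update ξ p (x + y)) =
      wedgeVal d w (Function.update ξ p x) + wedgeVal d w (Function.update ξ p y) := by
  rw [wedgeVal_update, wedgeVal_update, wedgeVal_update, ← add_mul, ← Matrix.det_updateRow_add]
  rfl

theorem wedgeVal_smul {d n : ℕ} [inst : DecidableEq (Fin d × Fin n)] (w : Fin n → V)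
    (ξ : Fin d × Fin n → Dual ℂ V) (p : Fin d × Fin n) (c : ℂ) (x : Dual ℂ V) :
    wedgeVal d w (Function.update ξ p (c • x)) = c • wedgeVal d w (Function.update ξ p x) := by
  rw [wedgeVal_update, wedgeVal_update, smul_eq_mul, ← mul_assoc, ← Matrix.det_updateRow_smul]
  rfl

/-- `(w_1 ∧ ... ∧ w_n)^{⊗d}` as a multilinear map: its value at `ξ` is the product over the `d`
blocks of `det (ξ_{k,i}(w_j))`. -/
noncomputable def wedgePow (d : ℕ) {n : ℕ} (w : Fin n → V) : Tens V (Fin d × Fin n) :=
  { toFun := wedgeVal d w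
    map_update_add' := wedgeVal_add w
    map_update_smul' := wedgeVal_smul w }

theorem wedgePow_val (d : ℕ) {n : ℕ} (w : Fin n → V) (ξ : Fin d × Fin n → Dual ℂ V) :
    (wedgePow d w).val ξ = ∏ k : Fin d, (Matrix.of fun i j : Fin n => ξ (k, i) (w j)).det := rfl

/-- The irreducible `GL(V)`-module `S_{(d^n)}V` (zero when `dim V < n` and `d > 0`), realized
inside `(V^{⊗n})^{⊗d}` as the span of the tensors `(w_1 ∧ ... ∧ w_n)^{⊗d}`, the orbit of the
highest weight vectors. -/
noncomputable def rect (d n : ℕ) (V : Type*) [AddCommGroup V] [Module ℂ V] :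
    Submodule ℂ (Tens V (Fin d × Fin n)) :=
  Submodule.span ℂ (Set.range (wedgePow (V := V) d (n := n)))

/-- The elements of `S_{(d^n)}V`. -/
def Rect (d n : ℕ) (V : Type*) [AddCommGroup V] [Module ℂ V] : Type _ := rect d n V

noncomputable instance rectGroup (d n : ℕ) (V : Type*) [AddCommGroup V] [Module ℂ V] :
    AddCommGroup (Rect d n V) :=
  inferInstanceAs (AddCommGroup (rect d n V))

noncomputable instance rectModule (d n : ℕ) (V : Type*) [AddCommGroup V] [Module ℂ V] :
    Module ℂ (Rect d n V) :=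
  inferInstanceAs (Module ℂ (rect d n V))

/-- The tensor underlying an element of `S_{(d^n)}V`. -/
def Rect.tens {d n : ℕ} (x : Rect d n V) : Tens V (Fin d × Fin n) :=
  (show rect d n V from x).1

/-- `φ` is a `GL(V)`-equivariant linear map from `S_{(d^n)}V` to `S^d(S^n V)`. -/
structure IsEquivariant {d n : ℕ} (φ : Rect d n V →ₗ[ℂ] Tens V (Fin d × Fin n)) : Prop where
  symm : ∀ x, IsSymSym (φ x)
  equi : ∀ (g : V ≃ₗ[ℂ] V) (x y : Rect d n V), y.tens = act g x.tens → φ y = act g (φ x)

/-- The `S_{(d^n)}V`-isotypic component of `S^d(S^n V)`: the sum of the images of all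
`GL(V)`-equivariant linear maps from `S_{(d^n)}V` to `S^d(S^n V)`. -/
noncomputable def rectComp (d n : ℕ) (V : Type*) [AddCommGroup V] [Module ℂ V] :
    Submodule ℂ (Tens V (Fin d × Fin n)) :=
  ⨆ (φ : Rect d n V →ₗ[ℂ] Tens V (Fin d × Fin n)) (_ : IsEquivariant φ), LinearMap.range φ

/-! ### The tensors `(w_1 ∧ ... ∧ w_n)^{⊗d}` -/

theorem act_val {ι : Type*} (g : V ≃ₗ[ℂ] V) (T : Tens V ι) (ξ : ι → Dual ℂ V) :
    (act g T).val ξ = T.val (fun p => (ξ p) ∘ₗ (g : V →ₗ[ℂ] V)) := rfl

theorem act_wedgePow (d : ℕ) {n : ℕ} (g : V ≃ₗ[ℂ] V) (w : Fin n → V) :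
    act g (wedgePow d w) = wedgePow d (fun j => g (w j)) := rfl

theorem wedgePow_lin (d : ℕ) {n : ℕ} (A : Matrix (Fin n) (Fin n) ℂ) (w : Fin n → V) :
    wedgePow d (fun j => ∑ i, A i j • w i) = A.det ^ d • wedgePow d w := by
  apply Tens.ext
  intro ξ
  rw [Tens.smul_val, wedgePow_val, wedgePow_val]
  have h : ∀ k : Fin d, (Matrix.of fun i j : Fin n => ξ (k, i) (∑ a, A a j • w a)).det =
      (Matrix.of fun i j : Fin n => ξ (k, i) (w j)).det * A.det := by
    intro k
    rw [← Matrix.det_mul]
    congr 1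
    ext i j
    simp only [Matrix.of_apply, Matrix.mul_apply, map_sum, map_smul, smul_eq_mul]
    exact Finset.sum_congr rfl (fun a _ => mul_comm _ _)
  rw [Finset.prod_congr rfl (fun k _ => h k), Finset.prod_mul_distrib]
  simp [mul_comm]

/-! ### The vanishing for odd `d` -/

section Vanish

variable {d n : ℕ}

theorem mem_rect (w : Fin n → V) : wedgePow d w ∈ rect d n V :=
  Submodule.subset_span ⟨w, rfl⟩

/-- the tensor as an element of the module -/
noncomputable def wp (d : ℕ) {n : ℕ} (w : Fin n → V) : Rect d n V :=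
  (⟨wedgePow d w, mem_rect w⟩ : rect d n V)

theorem wp_lin (A : Matrix (Fin n) (Fin n) ℂ) (w : Fin n → V) :
    wp d (fun j => ∑ i, A i j • w i) = A.det ^ d • wp d w :=
  Subtype.ext (wedgePow_lin d A w)

variable (φ : Rect d n V →ₗ[ℂ] Tens V (Fin d × Fin n))

/-- the restriction to constant blocks vanishes -/
theorem const_zero (hd : Odd d) (hn : 2 ≤ n) (hφ : IsEquivariant φ) (w : Fin n → V)
    (η : Fin n → Dual ℂ V) :
    (φ (wp d w)).val (fun p => η p.2) = 0 := by
  have hact : ∀ (g : V ≃ₗ[ℂ] V) (w : Fin n → V) (η : Fin n → Dual ℂ V),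
      (φ (wp d (fun j => g (w j)))).val (fun p => η p.2) =
        (φ (wp d w)).val (fun p => (η p.2) ∘ₗ (g : V →ₗ[ℂ] V)) := by
    intro g w η
    rw [hφ.equi g (wp d w) (wp d (fun j => g (w j))) (act_wedgePow d g w).symm]
    rfl
  have hlin : ∀ (A : Matrix (Fin n) (Fin n) ℂ) (w : Fin n → V) (η : Fin n → Dual ℂ V),
      (φ (wp d (fun j => ∑ i, A i j • w i))).val (fun p => η p.2) =
        A.det ^ d * (φ (wp d w)).val (fun p => η p.2) := by
    intro A w η
    rw [wp_lin, map_smul, Tens.smul_val]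
  have hneg : ∀ (x : ℂ), x = -x → x = 0 := by
    intro x hx
    have : (2 : ℂ) * x = 0 := by
      linear_combination hx
    simpa using this
  by_cases hM : (Matrix.of fun i j : Fin n => η i (w j)).det = 0
  · -- singular case
    obtain ⟨c, hc, hc2⟩ := Matrix.exists_mulVec_eq_zero_iff.2 hM
    have hc3 : ∀ i, η i (∑ j, c j • w j) = 0 := by
      intro i
      have := congrFun hc2 i
      simp only [Matrix.mulVec, dotProduct, Matrix.of_apply, Pi.zero_apply] at this
      rw [map_sum, ← this]
      exact Finset.sum_congr rfl (fun j _ => by rw [map_smul, smul_eq_mul, mul_comm])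
    by_cases hv : (∑ j, c j • w j) = 0
    · -- dependent vectors
      have h1 : wedgePow d w = 0 := by
        apply Tens.ext
        intro ξ
        rw [wedgePow_val, Tens.zero_val]
        obtain ⟨m, hm⟩ := hd
        have hd0 : 0 < d := by omega
        refine Finset.prod_eq_zero (mem_univ (⟨0, hd0⟩ : Fin d)) ?_
        refine Matrix.exists_mulVec_eq_zero_iff.1 ⟨c, hc, ?_⟩
        ext i
        simp only [Matrix.mulVec, dotProduct, Matrix.of_apply, Pi.zero_apply]
        rw [← map_zero (ξ (⟨0, hd0⟩, i)), ← hv, map_sum]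
        exact Finset.sum_congr rfl (fun j _ => by rw [map_smul, smul_eq_mul, mul_comm])
      have h2 : wp d w = 0 := Subtype.ext h1
      rw [h2, map_zero]
      rfl
    · obtain ⟨f, hf⟩ : ∃ f : Dual ℂ V, f (∑ j, c j • w j) = 2 := by
        obtain ⟨ζ, hζ⟩ := Module.Projective.exists_dual_eq_one ℂ hv
        exact ⟨(2 : ℂ) • ζ, by rw [LinearMap.smul_apply, hζ]; simp⟩
      set v : V := ∑ j, c j • w j with hvdef
      let A : Matrix (Fin n) (Fin n) ℂ :=
        1 + Matrix.replicateCol Unit (-c) * Matrix.replicateRow Unit (fun j => f (w j))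
      have hA : A.det = -1 := by
        have h1 : A.det = 1 + (fun j => f (w j)) ⬝ᵥ (-c) :=
          Matrix.det_one_add_replicateCol_mul_replicateRow (-c) (fun j => f (w j))
        have h2 : (fun j => f (w j)) ⬝ᵥ c = 2 := by
          rw [← hf, hvdef, map_sum]
          exact Finset.sum_congr rfl (fun j _ => by rw [map_smul, smul_eq_mul, mul_comm])
        rw [h1, dotProduct_neg, h2]
        norm_num
      have hg : (fun j => Module.reflection hf (w j)) = fun j => ∑ i, A i j • w i := by
        funext j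
        rw [Module.reflection_apply]
        have h1 : ∀ i, A i j • w i = (if i = j then w i else 0) - f (w j) • (c i • w i) := by
          intro i
          have : A i j = (if i = j then 1 else 0) - c i * f (w j) := by
            simp [A, Matrix.one_apply, Matrix.mul_apply, sub_eq_add_neg]
          rw [this, sub_smul, ite_smul, one_smul, zero_smul, smul_smul, mul_comm (c i)]
        rw [Finset.sum_congr rfl (fun i _ => h1 i), Finset.sum_sub_distrib, ← Finset.smul_sum,
          ← hvdef]
        simp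
      have h1 := hact (Module.reflection hf) w η
      have h2 : ∀ p : Fin d × Fin n, (η p.2) ∘ₗ ((Module.reflection hf : V ≃ₗ[ℂ] V) : V →ₗ[ℂ] V) =
          η p.2 := by
        intro p
        ext y
        simp [Module.reflection_apply, hc3]
      rw [hg, hlin, hA, hd.neg_one_pow] at h1
      simp only [h2] at h1
      apply hneg
      linear_combination -h1
  · -- nonsingular case
    set M : Matrix (Fin n) (Fin n) ℂ := Matrix.of fun i j : Fin n => η i (w j) with hMdef
    have hMu : IsUnit M.det := isUnit_iff_ne_zero.2 hM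
    let w' : Fin n → V := fun j => ∑ i, M⁻¹ i j • w i
    have hw' : ∀ i j, η i (w' j) = if i = j then 1 else 0 := by
      intro i j
      have h1 : (M * M⁻¹) i j = if i = j then 1 else 0 := by
        rw [Matrix.mul_nonsing_inv M hMu, Matrix.one_apply]
      rw [← h1, Matrix.mul_apply]
      simp only [w', map_sum, map_smul, smul_eq_mul]
      exact Finset.sum_congr rfl (fun a _ => mul_comm _ _)
    have hred : (φ (wp d w')).val (fun p => η p.2) = 0 →
        (φ (wp d w)).val (fun p => η p.2) = 0 := by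
      intro h
      have h1 := hlin M⁻¹ w η
      change (φ (wp d w')).val (fun p => η p.2) = _ at h1
      rw [h] at h1
      rcases mul_eq_zero.1 h1.symm with h2 | h2
      · exfalso
        have h3 : M⁻¹.det = 0 := by
          obtain ⟨m, hm⟩ := hd
          exact pow_eq_zero_iff (by omega) |>.1 h2
        rw [Matrix.det_nonsing_inv, Ring.inverse_eq_inv'] at h3
        exact inv_ne_zero hM h3
      · exact h2
    apply hred
    have h0 : (0 : ℕ) < n := by omega
    let a : Fin n := ⟨0, by omega⟩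
    let b : Fin n := ⟨1, by omega⟩
    have hab : a ≠ b := by
      intro h
      have := congrArg Fin.val h
      simp [a, b] at this
    have hf : (η a - η b) (w' a - w' b) = 2 := by
      rw [map_sub, LinearMap.sub_apply, LinearMap.sub_apply, hw', hw', hw', hw']
      simp [hab, hab.symm]
      norm_num
    have hg : (fun j => Module.reflection hf (w' j)) = fun j => w' (Equiv.swap a b j) := by
      funext j
      rw [Module.reflection_apply, LinearMap.sub_apply, hw', hw']
      by_cases hja : j = a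
      · subst hja
        simp [hab.symm]
      · by_cases hjb : j = b
        · subst hjb
          simp [hab]
        · rw [Equiv.swap_apply_of_ne_of_ne hja hjb]
          simp [Ne.symm hja, Ne.symm hjb]
    have hg2 : wp d (fun j => w' (Equiv.swap a b j)) = - wp d w' := by
      apply Subtype.ext
      apply Tens.ext
      intro ξ
      change (wedgePow d (fun j => w' (Equiv.swap a b j))).val ξ = -((wedgePow d w').val ξ)
      rw [wedgePow_val, wedgePow_val]
      have h3 : ∀ k : Fin d, (Matrix.of fun i j : Fin n => ξ (k, i) (w' (Equiv.swap a b j))).det =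
          -1 * (Matrix.of fun i j : Fin n => ξ (k, i) (w' j)).det := by
        intro k
        have h4 := Matrix.det_permute' (Equiv.swap a b)
          (Matrix.of fun i j : Fin n => ξ (k, i) (w' j))
        rw [Equiv.Perm.sign_swap hab] at h4
        refine Eq.trans ?_ (h4.trans ?_)
        · rfl
        · simp
      rw [Finset.prod_congr rfl (fun k _ => h3 k), Finset.prod_mul_distrib]
      simp [hd.neg_one_pow]
    have h1 := hact (Module.reflection hf) w' η
    have h2 : ∀ p : Fin d × Fin n, (η p.2) ∘ₗ ((Module.reflection hf : V ≃ₗ[ℂ] V) : V →ₗ[ℂ] V) =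
        η (Equiv.swap a b p.2) := by
      intro p
      ext y
      simp only [LinearMap.comp_apply, LinearEquiv.coe_coe]
      rw [Module.reflection_apply, map_sub, map_smul, map_sub, hw', hw', LinearMap.sub_apply]
      by_cases hja : p.2 = a
      · rw [hja]
        simp [hab]
      · by_cases hjb : p.2 = b
        · rw [hjb]
          simp [hab.symm]
        · rw [Equiv.swap_apply_of_ne_of_ne hja hjb]
          simp [hja, hjb]
    have h3 := hφ.symm (wp d w') 1 (fun _ => Equiv.swap a b) (fun p => η p.2)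
    simp only [h2] at h1
    rw [hg, hg2, map_neg, Tens.neg_val] at h1
    change (φ (wp d w')).val (fun p => η (Equiv.swap a b p.2)) = _ at h3
    rw [h3] at h1
    exact hneg _ h1.symm

end Vanish

/-! ### Polarization -/

section Polar

variable {d n : ℕ}

theorem polar (T : MultilinearMap ℂ (fun _ : Fin d × Fin n => Dual ℂ V) ℂ)
    (hT : ∀ η : Fin n → Dual ℂ V, T (fun p => η p.2) = 0)
    (ζ : Fin n × Fin d → Dual ℂ V) :
    ∑ σ : Fin n → Equiv.Perm (Fin d), T (fun p => ζ (p.2, σ p.2 p.1)) = 0 := by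
  classical
  -- expansion at a subset
  have h1 : ∀ s : Fin n × Fin d → Bool,
      ∑ r : Fin d × Fin n → Fin d, (∏ p, (if s (p.2, r p) then (1 : ℂ) else 0)) *
        T (fun p => ζ (p.2, r p)) = 0 := by
    intro s
    have h2 := hT (fun i => ∑ b : Fin d, (if s (i, b) then (1 : ℂ) else 0) • ζ (i, b))
    rw [T.map_sum (fun (p : Fin d × Fin n) (b : Fin d) =>
      (if s (p.2, b) then (1 : ℂ) else 0) • ζ (p.2, b))] at h2
    refine Eq.trans ?_ h2
    refine Finset.sum_congr rfl (fun r _ => ?_)
    exact (T.map_smul_univ (fun p => if s (p.2, r p) then (1 : ℂ) else 0)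
      (fun p => ζ (p.2, r p))).symm
  have h3 : ∑ s : Fin n × Fin d → Bool, (∏ q, (if s q then (1 : ℂ) else -1)) *
      ∑ r : Fin d × Fin n → Fin d, (∏ p, (if s (p.2, r p) then (1 : ℂ) else 0)) *
        T (fun p => ζ (p.2, r p)) = 0 :=
    Finset.sum_eq_zero (fun s _ => by rw [h1 s, mul_zero])
  simp_rw [Finset.mul_sum, ← mul_assoc] at h3
  rw [Finset.sum_comm] at h3
  simp_rw [← Finset.sum_mul] at h3
  -- the weight of a single `r`
  have h4 : ∀ r : Fin d × Fin n → Fin d,
      ∑ s : Fin n × Fin d → Bool, (∏ q, (if s q then (1 : ℂ) else -1)) *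
        (∏ p : Fin d × Fin n, (if s (p.2, r p) then (1 : ℂ) else 0)) =
      ∏ q : Fin n × Fin d, ((1 : ℂ) - 0 ^ (univ.filter (fun p : Fin d × Fin n =>
        (p.2, r p) = q)).card) := by
    intro r
    have h5 : ∀ s : Fin n × Fin d → Bool,
        (∏ p : Fin d × Fin n, (if s (p.2, r p) then (1 : ℂ) else 0)) =
        ∏ q : Fin n × Fin d, (if s q then (1 : ℂ) else 0) ^ (univ.filter
          (fun p : Fin d × Fin n => (p.2, r p) = q)).card := by
      intro s
      rw [← Finset.prod_fiberwise univ (fun p : Fin d × Fin n => (p.2, r p))]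
      refine Finset.prod_congr rfl (fun q _ => ?_)
      rw [← Finset.prod_const]
      refine Finset.prod_congr rfl (fun p hp => ?_)
      rw [(Finset.mem_filter.1 hp).2]
    simp_rw [h5, ← Finset.prod_mul_distrib]
    have h6 := Finset.prod_univ_sum (fun _ : Fin n × Fin d => (univ : Finset Bool))
      (fun q b => (if b then (1 : ℂ) else -1) * (if b then (1 : ℂ) else 0) ^ (univ.filter
          (fun p : Fin d × Fin n => (p.2, r p) = q)).card)
    rw [Fintype.piFinset_univ] at h6
    rw [← h6]
    refine Finset.prod_congr rfl (fun q _ => ?_)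
    rw [Fintype.sum_bool]
    simp [sub_eq_add_neg]
  simp_rw [h4] at h3
  refine Eq.trans ?_ h3
  refine Fintype.sum_of_injective
    (fun (σ : Fin n → Equiv.Perm (Fin d)) (p : Fin d × Fin n) => σ p.2 p.1) ?_ _ _ ?_ ?_
  · intro σ σ' h
    funext i
    ext k
    have := congrFun h (k, i)
    exact congrArg Fin.val this
  · intro r hr
    rw [mul_eq_zero]
    left
    by_contra hne
    apply hr
    have h7 : ∀ q : Fin n × Fin d, ∃ p : Fin d × Fin n, (p.2, r p) = q := by
      intro q
      by_contra hq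
      push Not at hq
      apply hne
      refine Finset.prod_eq_zero (mem_univ q) ?_
      rw [Finset.filter_false_of_mem (fun p _ => hq p)]
      simp
    have h8 : ∀ i : Fin n, Function.Surjective (fun k : Fin d => r (k, i)) := by
      intro i b
      obtain ⟨p, hp⟩ := h7 (i, b)
      refine ⟨p.1, ?_⟩
      have h9 : p.2 = i := congrArg Prod.fst hp
      have h10 : r p = b := congrArg Prod.snd hp
      simp only
      rw [← h9]
      exact h10
    refine ⟨fun i => Equiv.ofBijective (fun k : Fin d => r (k, i))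
      ⟨Finite.injective_iff_surjective.2 (h8 i), h8 i⟩, ?_⟩
    funext p
    rfl
  · intro σ
    have h7 : ∏ q : Fin n × Fin d, ((1 : ℂ) - 0 ^ (univ.filter (fun p : Fin d × Fin n =>
        (p.2, σ p.2 p.1) = q)).card) = 1 := by
      refine Finset.prod_eq_one (fun q _ => ?_)
      have h8 : (univ.filter (fun p : Fin d × Fin n => (p.2, σ p.2 p.1) = q)).card ≠ 0 := by
        rw [Finset.card_ne_zero]
        refine ⟨((σ q.1).symm q.2, q.1), ?_⟩
        simp
      rw [zero_pow h8, sub_zero]
    rw [h7, one_mul]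

theorem permute_val {ι κ : Type*} (e : ι ≃ κ) (T : Tens V ι) (ξ : κ → Dual ℂ V) :
    (permute e T).val ξ = T.val (fun p => ξ (e p)) := rfl

theorem hmap_val (T : Tens V (Fin d × Fin n)) (η : Fin n × Fin d → Dual ℂ V) :
    (hmap T).val η = (n.factorial : ℂ)⁻¹ * ∑ ρ : Equiv.Perm (Fin n),
      (((d.factorial : ℂ) ^ n)⁻¹ * ∑ σ : Fin n → Equiv.Perm (Fin d),
        T.val (fun p => η (blocks d ρ (p.2, σ p.2 p.1)))) := by
  rw [hmap, symBlocks, Tens.smul_val, Tens.sum_val]
  congr 1
  refine Finset.sum_congr rfl (fun ρ _ => ?_)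
  rw [permute_val, symInside, Tens.smul_val, Tens.sum_val]
  rfl

theorem hmap_eq_zero (T : Tens V (Fin d × Fin n))
    (hT : ∀ η : Fin n → Dual ℂ V, T.val (fun p => η p.2) = 0) : hmap T = 0 := by
  apply Tens.ext
  intro η
  rw [hmap_val, Tens.zero_val]
  have h : ∀ ρ : Equiv.Perm (Fin n), (((d.factorial : ℂ) ^ n)⁻¹ *
      ∑ σ : Fin n → Equiv.Perm (Fin d),
        T.val (fun p => η (blocks d ρ (p.2, σ p.2 p.1)))) = 0 := by
    intro ρ
    have h1 : ∑ σ : Fin n → Equiv.Perm (Fin d),
        T.val (fun p => η (blocks d ρ (p.2, σ p.2 p.1))) = 0 :=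
      polar T hT (fun q => η (blocks d ρ q))
    rw [h1, mul_zero]
  rw [Finset.sum_eq_zero (fun ρ _ => h ρ), mul_zero]

theorem hmap_add (S T : Tens V (Fin d × Fin n)) : hmap (S + T) = hmap S + hmap T := by
  apply Tens.ext
  intro η
  rw [Tens.add_val, hmap_val, hmap_val, hmap_val, ← mul_add, ← Finset.sum_add_distrib]
  congr 1
  refine Finset.sum_congr rfl (fun ρ _ => ?_)
  rw [← mul_add, ← Finset.sum_add_distrib]
  rfl

theorem hmap_smul (c : ℂ) (T : Tens V (Fin d × Fin n)) : hmap (c • T) = c • hmap T := by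
  apply Tens.ext
  intro η
  rw [Tens.smul_val, hmap_val, hmap_val]
  simp only [Tens.smul_val, ← Finset.mul_sum]
  ring

theorem hmap_zero : hmap (0 : Tens V (Fin d × Fin n)) = 0 := by
  have h := hmap_smul 0 (0 : Tens V (Fin d × Fin n))
  rwa [zero_smul, zero_smul] at h

end Polar

theorem rectComp_le (d n : ℕ) (hd : Odd d) (hn : 2 ≤ n) (T : Tens V (Fin d × Fin n))
    (hT : T ∈ rectComp d n V) : hmap T = 0 := by
  let K : Submodule ℂ (Tens V (Fin d × Fin n)) :=
    { carrier := {T | hmap T = 0}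
      add_mem' := fun {a b} ha hb => by
        change hmap (a + b) = 0
        rw [hmap_add, show hmap a = 0 from ha, show hmap b = 0 from hb, add_zero]
      zero_mem' := hmap_zero
      smul_mem' := fun c a ha => by
        change hmap (c • a) = 0
        rw [hmap_smul, show hmap a = 0 from ha, smul_zero] }
  have h : rectComp d n V ≤ K := by
    refine iSup_le (fun φ => iSup_le (fun hφ => ?_))
    rintro _ ⟨x, rfl⟩
    change hmap (φ x) = 0
    have h1 : ∀ y (hy : y ∈ rect d n V),
        hmap (φ (show Rect d n V from (⟨y, hy⟩ : rect d n V))) = 0 := by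
      intro y hy
      induction hy using Submodule.span_induction with
      | mem z hz =>
        obtain ⟨w, rfl⟩ := hz
        exact hmap_eq_zero _ (fun η => const_zero φ hd hn hφ w η)
      | zero =>
        have : (show Rect d n V from (⟨0, Submodule.zero_mem _⟩ : rect d n V)) = 0 := rfl
        rw [this, map_zero, hmap_zero]
      | add a b ha hb iha ihb =>
        have : (show Rect d n V from (⟨a + b, Submodule.add_mem _ ha hb⟩ : rect d n V)) =
          (show Rect d n V from (⟨a, ha⟩ : rect d n V)) +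
            (show Rect d n V from (⟨b, hb⟩ : rect d n V)) := rfl
        rw [this, map_add, hmap_add, iha, ihb, add_zero]
      | smul c a ha iha =>
        have : (show Rect d n V from (⟨c • a, Submodule.smul_mem _ c ha⟩ : rect d n V)) =
          c • (show Rect d n V from (⟨a, ha⟩ : rect d n V)) := rfl
        rw [this, map_smul, hmap_smul, iha, smul_zero]
    exact h1 _ (show rect d n V from x).2
  exact h hT

/-! ### The component is nonzero for `d = 7`, `n = 4` -/

section Seven

/-- the wreath product -/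
def wr {d n : ℕ} (σ : Equiv.Perm (Fin d)) (τ : Fin d → Equiv.Perm (Fin n)) :
    Equiv.Perm (Fin d × Fin n) where
  toFun p := (σ p.1, τ p.1 p.2)
  invFun p := (σ.symm p.1, (τ (σ.symm p.1)).symm p.2)
  left_inv p := by simp
  right_inv p := by simp

variable {d n : ℕ} (E : Equiv.Perm (Fin d × Fin n))

/-- symmetrization after a permutation of the inputs -/
noncomputable def bra (T : Tens V (Fin d × Fin n)) : Tens V (Fin d × Fin n) :=
  ∑ σ : Equiv.Perm (Fin d), ∑ τ : Fin d → Equiv.Perm (Fin n), permute (E.trans (wr σ τ)) T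

theorem bra_val (T : Tens V (Fin d × Fin n)) (ξ : Fin d × Fin n → Dual ℂ V) :
    (bra E T).val ξ = ∑ σ : Equiv.Perm (Fin d), ∑ τ : Fin d → Equiv.Perm (Fin n),
      T.val (fun p => ξ (wr σ τ (E p))) := by
  rw [bra, Tens.sum_val]
  refine Finset.sum_congr rfl (fun σ _ => ?_)
  rw [Tens.sum_val]
  rfl

theorem bra_mem (T : Tens V (Fin d × Fin n)) : IsSymSym (bra E T) := by
  intro σ₀ τ₀ ξ
  rw [bra_val, bra_val, ← Finset.sum_product', ← Finset.sum_product']
  refine Fintype.sum_equiv
    (⟨fun x => (σ₀ * x.1, fun k => τ₀ (x.1 k) * x.2 k),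
      fun x => (σ₀⁻¹ * x.1, fun k => (τ₀ ((σ₀⁻¹ * x.1) k))⁻¹ * x.2 k), ?_, ?_⟩ :
      (Equiv.Perm (Fin d) × (Fin d → Equiv.Perm (Fin n))) ≃
        (Equiv.Perm (Fin d) × (Fin d → Equiv.Perm (Fin n)))) _ _ ?_
  · rintro ⟨σ, τ⟩
    simp
  · rintro ⟨σ, τ⟩
    simp
  · rintro ⟨σ, τ⟩
    rfl

theorem bra_act (g : V ≃ₗ[ℂ] V) (T : Tens V (Fin d × Fin n)) :
    bra E (act g T) = act g (bra E T) := by
  apply Tens.ext
  intro ξ
  rw [bra_val, act_val, bra_val]
  rfl

theorem bra_add (S T : Tens V (Fin d × Fin n)) : bra E (S + T) = bra E S + bra E T := by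
  apply Tens.ext
  intro ξ
  rw [Tens.add_val, bra_val, bra_val, bra_val, ← Finset.sum_add_distrib]
  refine Finset.sum_congr rfl (fun σ _ => ?_)
  rw [← Finset.sum_add_distrib]
  rfl

theorem bra_smul (c : ℂ) (T : Tens V (Fin d × Fin n)) : bra E (c • T) = c • bra E T := by
  apply Tens.ext
  intro ξ
  rw [Tens.smul_val, bra_val, bra_val, Finset.mul_sum]
  refine Finset.sum_congr rfl (fun σ _ => ?_)
  rw [Finset.mul_sum]
  rfl

theorem bra_rectComp (w : Fin n → V) : bra E (wedgePow d w) ∈ rectComp d n V := by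
  let φ : Rect d n V →ₗ[ℂ] Tens V (Fin d × Fin n) :=
    { toFun := fun x => bra E x.tens
      map_add' := fun x y => bra_add E x.tens y.tens
      map_smul' := fun c x => bra_smul E c x.tens }
  have hφ : IsEquivariant φ := by
    refine ⟨fun x => bra_mem E _, ?_⟩
    intro g x y hxy
    change bra E y.tens = act g (bra E x.tens)
    rw [hxy, bra_act]
  have h1 : LinearMap.range φ ≤ rectComp d n V :=
    le_iSup₂_of_le (f := fun (φ : Rect d n V →ₗ[ℂ] Tens V (Fin d × Fin n))
      (_ : IsEquivariant φ) => LinearMap.range φ) φ hφ le_rfl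
  exact h1 ⟨wp d w, rfl⟩

theorem bra_const (w : Fin n → V) (l : Fin d → Dual ℂ V) :
    (bra E (wedgePow d w)).val (fun p => l p.1) = (n.factorial : ℂ) ^ d *
      ∑ σ : Equiv.Perm (Fin d), ∏ s : Fin d,
        (Matrix.of fun i j : Fin n => l (σ (E (s, i)).1) (w j)).det := by
  rw [bra_val, Finset.mul_sum]
  refine Finset.sum_congr rfl (fun σ _ => ?_)
  have h : ∀ τ : Fin d → Equiv.Perm (Fin n),
      (wedgePow d w).val (fun p => l (wr σ τ (E p)).1) =
      ∏ s : Fin d, (Matrix.of fun i j : Fin n => l (σ (E (s, i)).1) (w j)).det := fun τ => rfl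
  rw [Finset.sum_congr rfl (fun τ _ => h τ), Finset.sum_const, nsmul_eq_mul, Finset.card_univ,
    Fintype.card_fun, Fintype.card_perm, Fintype.card_fin, Fintype.card_fin]
  push_cast
  rfl

/-- the slots of the brackets -/
def slots : Equiv.Perm (Fin 7 × Fin 4) where
  toFun p := (X214.Fano.K p.1 p.2, p.2)
  invFun p := (p.1 - ![2, 4, 5, 6] p.2, p.2)
  left_inv p := by simp [X214.Fano.K]
  right_inv p := by simp [X214.Fano.K]

theorem rectComp_ne_bot (h4 : 4 ≤ finrank ℂ V) : rectComp 7 4 V ≠ ⊥ := by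
  intro hbot
  obtain ⟨w, hw⟩ : ∃ w : Fin 4 → V, LinearIndependent ℂ w := by
    have : 0 < finrank ℂ V := by omega
    have hfin : FiniteDimensional ℂ V := FiniteDimensional.of_finrank_pos this
    let b := Module.finBasis ℂ V
    exact ⟨fun j => b (Fin.castLE h4 j), b.linearIndependent.comp _ (Fin.castLE_injective h4)⟩
  have h0 : bra slots (wedgePow 7 w) = 0 := by
    have h2 := bra_rectComp slots w
    rw [hbot, Submodule.mem_bot] at h2
    exact h2
  -- dual functionals
  obtain ⟨π, hπ⟩ : ∃ π : V →ₗ[ℂ] (Fin 4 → ℂ), ∀ j, π (w j) = Pi.single j 1 := by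
    have hinj : LinearMap.ker (Fintype.linearCombination ℂ w) = ⊥ := by
      rw [LinearMap.ker_eq_bot]
      exact (linearIndependent_iff_injective_fintypeLinearCombination).1 hw
    obtain ⟨π, hπ⟩ := LinearMap.exists_leftInverse_of_injective _ hinj
    refine ⟨π, fun j => ?_⟩
    have h1 := LinearMap.congr_fun hπ (Pi.single j 1)
    simpa using h1
  let l : Fin 7 → Dual ℂ V := fun k => ∑ a, (X214.Fano.L k a : ℂ) • (LinearMap.proj a ∘ₗ π)
  have hl : ∀ k j, l k (w j) = (X214.Fano.L k j : ℂ) := by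
    intro k j
    simp only [l, LinearMap.sum_apply, LinearMap.smul_apply, LinearMap.comp_apply, hπ,
      LinearMap.proj_apply, smul_eq_mul]
    rw [Finset.sum_eq_single j]
    · simp
    · intro a _ ha
      simp [ha]
    · simp
  have h1 : (bra slots (wedgePow 7 w)).val (fun p => l p.1) = 0 := by
    rw [h0]
    rfl
  rw [bra_const] at h1
  have h2 : ∀ σ : Equiv.Perm (Fin 7), ∏ s : Fin 7,
      (Matrix.of fun i j : Fin 4 => l (σ (slots (s, i)).1) (w j)).det =
        (X214.Fano.term σ : ℂ) := by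
    intro σ
    rw [X214.Fano.term, Int.cast_prod]
    refine Finset.prod_congr rfl (fun s _ => ?_)
    have h3 : (Matrix.of fun i j : Fin 4 => l (σ (slots (s, i)).1) (w j)) =
        (Int.castRingHom ℂ).mapMatrix
          (Matrix.of fun i j : Fin 4 => X214.Fano.L (σ (X214.Fano.K s i)) j) := by
      ext i j
      simp only [Matrix.of_apply, RingHom.mapMatrix_apply, Matrix.map_apply]
      rw [hl]
      rfl
    rw [h3, ← RingHom.map_det, X214.Fano.det_four]
    rfl
  rw [Finset.sum_congr rfl (fun σ _ => h2 σ), ← Int.cast_sum, X214.Fano.sum_term] at h1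
  rcases mul_eq_zero.1 h1 with h3 | h3
  · exact pow_ne_zero _ (Nat.cast_ne_zero.2 (Nat.factorial_ne_zero 4)) h3
  · rw [Int.cast_eq_zero] at h3
    omega

end Seven

theorem result :
    (∀ (V : Type*) [AddCommGroup V] [Module ℂ V] [FiniteDimensional ℂ V] (d n : ℕ),
      Odd d → 2 ≤ n → ∀ T ∈ rectComp d n V, hmap T = 0) ∧
    (∀ (V : Type*) [AddCommGroup V] [Module ℂ V] [FiniteDimensional ℂ V],
      4 ≤ finrank ℂ V → rectComp 7 4 V ≠ ⊥ ∧ ∀ T ∈ rectComp 7 4 V, hmap T = 0) :=
  ⟨fun V _ _ _ d n hd hn => rectComp_le d n hd hn,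
    fun V _ _ _ h4 => ⟨rectComp_ne_bot h4, rectComp_le 7 4 (by decide) (by norm_num)⟩⟩

end Pool.Agent.Results.MP_96ff56_al.OddRectangle
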